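import Pool.Agent.W716.FV.StmA

/-!
# A numerical inequality with a Gaussian integral
-/

set_option autoImplicit false

open MeasureTheory

namespace Pool.Agent.W366.FVKN

open Pool.Agent.W716.FV

theorem kd_nonneg (κ : ℝ) : 0 ≤ kd κ := by
  unfold kd
  positivity

theorem kd_cont : Continuous kd := by
  unfold kd
  refine Continuous.div continuous_const (by fun_prop) fun x => ?_
  positivity

theorem int_nu (g : ℝ → ℝ) : ∫ κ, g κ ∂nu = ∫ κ, kd κ * g κ := by
  unfold nu
  rw [integral_withDensity_eq_integral_toReal_smul kd_cont.measurable.ennreal_ofReal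
    (Filter.Eventually.of_forall fun x => ENNReal.ofReal_lt_top)]
  refine integral_congr_ae (Filter.Eventually.of_forall fun x => ?_)
  change (ENNReal.ofReal (kd x)).toReal • g x = kd x * g x
  rw [ENNReal.toReal_ofReal (kd_nonneg x), smul_eq_mul]

theorem int_sq {b : ℝ} (hb : 0 < b) : Integrable fun x : ℝ => x ^ 2 * Real.exp (-b * x ^ 2) := by
  have h := integrable_rpow_mul_exp_neg_mul_sq hb (s := 2) (by norm_num)
  refine h.congr (Filter.Eventually.of_forall fun x => ?_)
  change x ^ (2 : ℝ) * _ = _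
  rw [Real.rpow_two]

theorem int_zero {b : ℝ} (hb : 0 < b) :
    ∫ x : ℝ, (x ^ 2 - 1 / (2 * b)) * Real.exp (-b * x ^ 2) = 0 := by
  refine integral_eq_zero_of_hasDerivAt_of_integrable
    (f := fun x : ℝ => (-1 / (2 * b)) * (x * Real.exp (-b * x ^ 2))) ?_ ?_ ?_
  · intro x
    have h1 : HasDerivAt (fun x : ℝ => -b * x ^ 2) (-b * (2 * x)) x := by
      have h2 := (hasDerivAt_pow 2 x).const_mul (-b)
      simpa using h2
    have h3 := ((hasDerivAt_id x).mul h1.exp).const_mul (-1 / (2 * b))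
    refine h3.congr_deriv ?_
    simp only [id]
    field_simp
    ring
  · have h := (int_sq hb).sub ((integrable_exp_neg_mul_sq hb).const_mul (1 / (2 * b)))
    refine h.congr (Filter.Eventually.of_forall fun x => ?_)
    simp only [Pi.sub_apply]
    ring
  · exact (integrable_mul_exp_neg_mul_sq hb).const_mul _

theorem tangent (s t : ℝ) (hs : 0 < s) (ht : 0 < t) :
    1 / s ^ 2 - 2 / s ^ 3 * (t - s) ≤ 1 / t ^ 2 := by
  have h1 : 1 / t ^ 2 - (1 / s ^ 2 - 2 / s ^ 3 * (t - s)) =
      (t - s) ^ 2 * (2 * t + s) / (s ^ 3 * t ^ 2) := by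
    field_simp
    ring
  have h2 : 0 ≤ (t - s) ^ 2 * (2 * t + s) / (s ^ 3 * t ^ 2) := by positivity
  linarith

theorem main : KappaNum := by
  intro a ha
  have ha0 : 0 < a := by linarith
  set b : ℝ := a ^ 2 / 4 with hb'
  have hb : 0 < b := by positivity
  set s : ℝ := 1 + 2 / a ^ 2 with hs'
  have hs : 0 < s := by positivity
  have hbs : 1 / (2 * b) = s - 1 := by
    rw [hb', hs']
    field_simp
    ring
  set c : ℝ := 8 / (3 * Real.pi) with hc'
  have hc : 0 < c := by positivity
  rw [int_nu]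
  have e1 : ∀ κ : ℝ, kd κ * ((1 + κ ^ 2) * Real.exp (-(κ ^ 2 * a ^ 2 / 4))) =
      c * (1 / (1 + κ ^ 2) ^ 2) * Real.exp (-b * κ ^ 2) := by
    intro κ
    have e2 : -(κ ^ 2 * a ^ 2 / 4) = -b * κ ^ 2 := by rw [hb']; ring
    have e3 : (1 + κ ^ 2 : ℝ) ≠ 0 := by positivity
    rw [e2]
    unfold kd
    rw [← hc']
    field_simp
  have hint1 : Integrable fun κ : ℝ => c * (1 / (1 + κ ^ 2) ^ 2) * Real.exp (-b * κ ^ 2) := by
    refine Integrable.mono' ((integrable_exp_neg_mul_sq hb).const_mul c) ?_ ?_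
    · refine Continuous.aestronglyMeasurable ?_
      refine Continuous.mul (Continuous.mul continuous_const (Continuous.div continuous_const
        (by fun_prop) fun x => by positivity)) (by fun_prop)
    · refine Filter.Eventually.of_forall fun κ => ?_
      rw [Real.norm_eq_abs, abs_of_nonneg (by positivity)]
      refine mul_le_mul_of_nonneg_right ?_ (Real.exp_pos _).le
      have h1 : 1 / (1 + κ ^ 2) ^ 2 ≤ 1 := by
        rw [div_le_one (by positivity)]
        nlinarith [sq_nonneg κ]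
      nlinarith
  have hint2 : Integrable fun κ : ℝ => c * (1 / s ^ 2) * Real.exp (-b * κ ^ 2) -
      c * (2 / s ^ 3) * ((κ ^ 2 - 1 / (2 * b)) * Real.exp (-b * κ ^ 2)) := by
    refine ((integrable_exp_neg_mul_sq hb).const_mul _).sub (Integrable.const_mul ?_ _)
    have h := (int_sq hb).sub ((integrable_exp_neg_mul_sq hb).const_mul (1 / (2 * b)))
    refine h.congr (Filter.Eventually.of_forall fun x => ?_)
    simp only [Pi.sub_apply]
    ring
  have hint3 : Integrable fun κ : ℝ => (κ ^ 2 - 1 / (2 * b)) * Real.exp (-b * κ ^ 2) := by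
    have h := (int_sq hb).sub ((integrable_exp_neg_mul_sq hb).const_mul (1 / (2 * b)))
    refine h.congr (Filter.Eventually.of_forall fun x => ?_)
    simp only [Pi.sub_apply]
    ring
  have hle : c * (1 / s ^ 2) * √(Real.pi / b) ≤
      ∫ κ : ℝ, kd κ * ((1 + κ ^ 2) * Real.exp (-(κ ^ 2 * a ^ 2 / 4))) := by
    calc c * (1 / s ^ 2) * √(Real.pi / b) = ∫ κ : ℝ, (c * (1 / s ^ 2) * Real.exp (-b * κ ^ 2) -
          c * (2 / s ^ 3) * ((κ ^ 2 - 1 / (2 * b)) * Real.exp (-b * κ ^ 2))) := by
          rw [integral_sub ((integrable_exp_neg_mul_sq hb).const_mul _) (hint3.const_mul _),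
            integral_const_mul, integral_const_mul, int_zero hb, integral_gaussian, mul_zero,
            sub_zero]
      _ ≤ ∫ κ : ℝ, c * (1 / (1 + κ ^ 2) ^ 2) * Real.exp (-b * κ ^ 2) := by
          refine integral_mono hint2 hint1 fun κ => ?_
          have h1 := tangent s (1 + κ ^ 2) hs (by positivity)
          have h2 : c * (1 / s ^ 2) * Real.exp (-b * κ ^ 2) -
              c * (2 / s ^ 3) * ((κ ^ 2 - 1 / (2 * b)) * Real.exp (-b * κ ^ 2)) =
              c * (1 / s ^ 2 - 2 / s ^ 3 * (1 + κ ^ 2 - s)) * Real.exp (-b * κ ^ 2) := by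
            rw [hbs]
            ring
          change c * (1 / s ^ 2) * Real.exp (-b * κ ^ 2) -
              c * (2 / s ^ 3) * ((κ ^ 2 - 1 / (2 * b)) * Real.exp (-b * κ ^ 2)) ≤
              c * (1 / (1 + κ ^ 2) ^ 2) * Real.exp (-b * κ ^ 2)
          rw [h2]
          exact mul_le_mul_of_nonneg_right (mul_le_mul_of_nonneg_left h1 hc.le) (Real.exp_pos _).le
      _ = _ := integral_congr_ae (Filter.Eventually.of_forall fun κ => (e1 κ).symm)
  set q : ℝ := √Real.pi with hq'
  have hq : 0 < q := Real.sqrt_pos.2 Real.pi_pos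
  have hqq : q ^ 2 = Real.pi := Real.sq_sqrt Real.pi_pos.le
  have hq1 : q < 178 / 100 := by
    rw [hq', Real.sqrt_lt' (by norm_num)]
    have := Real.pi_lt_d2
    norm_num at this ⊢
    linarith
  have hsq : √(Real.pi / b) = 2 * q / a := by
    rw [Real.sqrt_eq_iff_mul_self_eq (by positivity) (by positivity), hb', ← hqq]
    field_simp
    ring
  rw [hsq] at hle
  have hlow : 432 / 100 < a ^ 2 * (c * (1 / s ^ 2) * (2 * q / a)) := by
    have h1 : a ^ 2 * (c * (1 / s ^ 2) * (2 * q / a)) = 16 * a / (3 * q * s ^ 2) := by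
      rw [hc', ← hqq]
      field_simp
      ring
    have h2 : s ≤ 219 / 169 := by
      have h3 : 2 / a ^ 2 ≤ 50 / 169 := by
        rw [div_le_div_iff₀ (by positivity) (by norm_num)]
        nlinarith
      rw [hs']
      linarith
    have h3 : s ^ 2 ≤ (219 / 169) ^ 2 := pow_le_pow_left₀ hs.le h2 2
    rw [h1, lt_div_iff₀ (by positivity)]
    have h4 : q * s ^ 2 ≤ 178 / 100 * (219 / 169) ^ 2 :=
      mul_le_mul hq1.le h3 (by positivity) (by norm_num)
    have h5 : (432 / 100 : ℝ) * (3 * q * s ^ 2) ≤ 432 / 100 * 3 * (178 / 100 * (219 / 169) ^ 2) := by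
      nlinarith
    have h6 : (432 / 100 : ℝ) * 3 * (178 / 100 * (219 / 169) ^ 2) < 16 * (13 / 5) := by norm_num
    linarith
  calc 432 / 100 < a ^ 2 * (c * (1 / s ^ 2) * (2 * q / a)) := hlow
    _ ≤ _ := mul_le_mul_of_nonneg_left hle (by positivity)

end Pool.Agent.W366.FVKN
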